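import Mathlib
set_option maxHeartbeats 400000
open Filter Topology Set MeasureTheory
open scoped NNReal ENNReal
namespace Pool.Agent.H.MP_2d1133_lc

def good (b Q N : ℕ) : Set ℝ := {x | ∀ n ≥ N, ∀ m : ℤ, ((Q:ℝ) ^ n)⁻¹ ≤ |x - m / (b:ℝ) ^ n|}

lemma good_closed (b Q N : ℕ) : IsClosed (good b Q N) := by
  simp only [good, Set.ofPred_forall]
  refine isClosed_iInter fun n => isClosed_iInter fun _ => isClosed_iInter fun m => ?_
  exact isClosed_le continuous_const (by fun_prop)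

lemma good_mono (b Q : ℕ) {N N' : ℕ} (h : N ≤ N') : good b Q N ⊆ good b Q N' :=
  fun _ hx n hn m => hx n (le_trans h hn) m

lemma term_le (b Q : ℕ) (hb : 2 ≤ b) (hQ : b ≤ Q) (d : ℝ) (hQd : 2 * (b:ℝ) ≤ (Q:ℝ) ^ (d - 1))
    (n N : ℕ) : (((b:ℝ) ^ (n+N) + 1) * (Q:ℝ) ^ (n+N)) * (2 * ((Q:ℝ) ^ (n+N))⁻¹) ^ d ≤
      2 * 2 ^ d * (1/2) ^ n := by
  have hb0 : (2:ℝ) ≤ b := by exact_mod_cast hb
  have hQ0 : (0:ℝ) < Q := by
    have : (b:ℝ) ≤ Q := by exact_mod_cast hQ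
    linarith
  set k := n + N with hk
  have h1 : ((Q:ℝ) ^ k) ^ d = (Q:ℝ) ^ k * ((Q:ℝ) ^ (d - 1)) ^ k := by
    rw [← Real.rpow_natCast, ← Real.rpow_natCast, ← Real.rpow_mul hQ0.le, ← Real.rpow_mul hQ0.le,
      ← Real.rpow_add hQ0]
    congr 1; ring
  have h2 : (2 * (b:ℝ)) ^ k ≤ ((Q:ℝ) ^ (d - 1)) ^ k := pow_le_pow_left₀ (by positivity) hQd k
  have h3 : (1:ℝ) ≤ (b:ℝ) ^ k := one_le_pow₀ (by linarith)
  have h4 : (2:ℝ) ^ n ≤ 2 ^ k := pow_le_pow_right₀ (by norm_num) (by omega)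
  have h5 : (0:ℝ) < 2 ^ d := by positivity
  have h6 : (0:ℝ) < ((Q:ℝ) ^ (d - 1)) ^ k := by positivity
  rw [Real.mul_rpow (by norm_num) (by positivity), Real.inv_rpow (by positivity), h1]
  rw [mul_pow] at h2
  have h7 : ((b:ℝ) ^ k + 1) * (Q:ℝ) ^ k * (2 ^ d * ((Q:ℝ) ^ k * ((Q:ℝ) ^ (d - 1)) ^ k)⁻¹) =
      2 ^ d * (((b:ℝ) ^ k + 1) / ((Q:ℝ) ^ (d - 1)) ^ k) := by
    field_simp
  have h8 : ((b:ℝ) ^ k + 1) / ((Q:ℝ) ^ (d - 1)) ^ k ≤ 2 * (1/2) ^ n := by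
    rw [div_le_iff₀ h6, one_div, inv_pow]
    have h9 : (0:ℝ) < 2 ^ n := by positivity
    have h10 : (b:ℝ) ^ k ≤ (2 ^ n)⁻¹ * ((Q:ℝ) ^ (d - 1)) ^ k := by
      rw [le_inv_mul_iff₀ h9]
      nlinarith
    nlinarith
  rw [h7]
  nlinarith

lemma strip (b Q : ℕ) (hb : 2 ≤ b) (hQ : b ≤ Q) (d : ℝ≥0)
    (hQd : 2 * (b:ℝ) ≤ (Q:ℝ) ^ ((d:ℝ) - 1)) (i j : ℤ) :
    dimH {p : ℝ × ℝ | ⌊p.1⌋ = i ∧ ⌊p.2⌋ = j ∧ ∀ N, p.1 ∉ good b Q N} ≤ d := by
  have hb0 : (2:ℝ) ≤ b := by exact_mod_cast hb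
  have hbQ : (b:ℝ) ≤ Q := by exact_mod_cast hQ
  have hQ0 : (0:ℝ) < Q := by linarith
  apply dimH_le_of_hausdorffMeasure_ne_top
  let ι : ℕ → Type := fun N => Σ n : ℕ, Fin (b ^ (n+N) + 1) × Fin (Q ^ (n+N))
  let t : ∀ N, ι N → Set (ℝ × ℝ) := fun N a =>
    Metric.closedBall ((i:ℝ) + (a.2.1:ℕ) / (b:ℝ) ^ (a.1+N), (j:ℝ) + (a.2.2:ℕ) / (Q:ℝ) ^ (a.1+N))
      ((Q:ℝ) ^ (a.1+N))⁻¹
  have hdi : ∀ N (a : ι N), Metric.ediam (t N a) ≤ ENNReal.ofReal (2 * ((Q:ℝ) ^ (a.1+N))⁻¹) := by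
    intro N a
    apply Metric.ediam_le_of_forall_dist_le
    intro x hx y hy
    have h1 := dist_triangle_right x y ((i:ℝ) + (a.2.1:ℕ) / (b:ℝ) ^ (a.1+N),
      (j:ℝ) + (a.2.2:ℕ) / (Q:ℝ) ^ (a.1+N))
    have h2 := Metric.mem_closedBall.mp hx
    have h3 := Metric.mem_closedBall.mp hy
    linarith
  have hr : Tendsto (fun N : ℕ => ENNReal.ofReal (2 * ((Q:ℝ) ^ N)⁻¹)) atTop (𝓝 0) := by
    rw [← ENNReal.ofReal_zero]
    apply ENNReal.tendsto_ofReal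
    have := (tendsto_inv_atTop_zero.comp
      (tendsto_pow_atTop_atTop_of_one_lt (show (1:ℝ) < Q by linarith))).const_mul 2
    simpa using this
  have h := Measure.hausdorffMeasure_le_liminf_tsum (ι := ι) (d:ℝ)
    {p : ℝ × ℝ | ⌊p.1⌋ = i ∧ ⌊p.2⌋ = j ∧ ∀ N, p.1 ∉ good b Q N} _ hr t
    (Eventually.of_forall fun N a => (hdi N a).trans (ENNReal.ofReal_le_ofReal (by
      have : (Q:ℝ) ^ N ≤ (Q:ℝ) ^ (a.1+N) := pow_le_pow_right₀ (by linarith) (by omega)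
      have := inv_anti₀ (by positivity) this
      linarith)))
    (Eventually.of_forall fun N => by
      rintro ⟨x, y⟩ ⟨hx, hy, hp⟩
      have h1 := hp N
      simp only [good, Set.mem_ofPred_eq, not_forall, not_le] at h1 hx hy
      obtain ⟨k, hk, m, hm⟩ := h1
      obtain ⟨n, rfl⟩ : ∃ n, k = n + N := ⟨k - N, by omega⟩
      set k := n + N with hk'
      have hbk : (0:ℝ) < (b:ℝ) ^ k := by positivity
      have hQk : (0:ℝ) < (Q:ℝ) ^ k := by positivity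
      have hx1 : (i:ℝ) ≤ x := hx ▸ Int.floor_le x
      have hx2 : x < i + 1 := hx ▸ Int.lt_floor_add_one x
      have hy1 : (j:ℝ) ≤ y := hy ▸ Int.floor_le y
      have hy2 : y < j + 1 := hy ▸ Int.lt_floor_add_one y
      have hw : ((Q:ℝ) ^ k)⁻¹ ≤ ((b:ℝ) ^ k)⁻¹ :=
        inv_anti₀ hbk (pow_le_pow_left₀ (by linarith) hbQ k)
      have hm2 := abs_lt.mp (lt_of_lt_of_le hm hw)
      have e1 : (m:ℝ) = (m / (b:ℝ) ^ k) * (b:ℝ) ^ k := by field_simp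
      have e2 : ((b:ℝ) ^ k)⁻¹ * (b:ℝ) ^ k = 1 := by field_simp
      have a1 : ((i * (b:ℤ) ^ k - 1 : ℤ) : ℝ) < m := by
        push_cast; nlinarith [hm2.2]
      have a2 : (m:ℝ) < ((i * (b:ℤ) ^ k + (b:ℤ) ^ k + 1 : ℤ) : ℝ) := by
        push_cast; nlinarith [hm2.1]
      have a1' := Int.cast_lt.mp a1
      have a2' := Int.cast_lt.mp a2
      obtain ⟨m', hm'⟩ : ∃ m' : ℕ, m = i * (b:ℤ) ^ k + m' :=
        ⟨(m - i * (b:ℤ) ^ k).toNat, by omega⟩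
      have hm3 : m' < b ^ k + 1 := by
        have : (m' : ℤ) < (b:ℤ) ^ k + 1 := by omega
        exact_mod_cast this
      have hl0 : 0 ≤ (y - j) * (Q:ℝ) ^ k := by nlinarith
      have hl : ⌊(y - j) * (Q:ℝ) ^ k⌋₊ < Q ^ k := by
        rw [Nat.floor_lt hl0]
        push_cast; nlinarith
      refine Set.mem_iUnion.mpr ⟨⟨n, ⟨m', hm3⟩, ⟨_, hl⟩⟩, ?_⟩
      simp only [t, Metric.mem_closedBall, Prod.dist_eq, Real.dist_eq, max_le_iff, ← hk']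
      constructor
      · refine le_trans (le_of_eq ?_) hm.le
        congr 1
        rw [hm']; push_cast; field_simp
      · have b1 := Nat.floor_le hl0
        have b2 := Nat.lt_floor_add_one ((y - j) * (Q:ℝ) ^ k)
        have e3 : y - (j + (⌊(y - j) * (Q:ℝ) ^ k⌋₊ : ℝ) / (Q:ℝ) ^ k) =
            ((y - j) * (Q:ℝ) ^ k - ⌊(y - j) * (Q:ℝ) ^ k⌋₊) * ((Q:ℝ) ^ k)⁻¹ := by
          field_simp; ring
        rw [e3, abs_of_nonneg (mul_nonneg (by linarith) (by positivity))]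
        have : (0:ℝ) < ((Q:ℝ) ^ k)⁻¹ := by positivity
        nlinarith)
  have hs : ∀ N, ∑' a : ι N, Metric.ediam (t N a) ^ (d:ℝ) ≤
      ENNReal.ofReal (∑' n : ℕ, 2 * 2 ^ (d:ℝ) * (1/2:ℝ) ^ n) := by
    intro N
    rw [ENNReal.ofReal_tsum_of_nonneg (fun n => by positivity) (summable_geometric_two.mul_left _),
      ENNReal.tsum_sigma']
    refine ENNReal.tsum_le_tsum fun n => ?_
    refine le_trans ?_ (ENNReal.ofReal_le_ofReal (term_le b Q hb hQ d hQd n N))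
    rw [tsum_fintype]
    refine le_trans (Finset.sum_le_card_nsmul _ _
      (ENNReal.ofReal ((2 * ((Q:ℝ) ^ (n+N))⁻¹) ^ (d:ℝ))) ?_) (le_of_eq ?_)
    · intro a _
      rw [← ENNReal.ofReal_rpow_of_nonneg (by positivity) d.coe_nonneg]
      exact ENNReal.rpow_le_rpow (hdi N ⟨n, a⟩) d.coe_nonneg
    · rw [ENNReal.ofReal_mul (by positivity), nsmul_eq_mul]
      congr 1
      rw [← ENNReal.ofReal_natCast]
      simp
  exact ne_top_of_le_ne_top ENNReal.ofReal_ne_top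
    (h.trans (liminf_le_of_frequently_le' (Frequently.of_forall hs)))

noncomputable def dig (b n : ℕ) (x : ℝ) : ℤ := ⌊(b:ℝ) ^ (n+1) * x⌋ - b * ⌊(b:ℝ) ^ n * x⌋

lemma dig_bd (b n : ℕ) (hb : 2 ≤ b) (x : ℝ) : 0 ≤ dig b n x ∧ dig b n x < b := by
  have hb0 : (2:ℝ) ≤ b := by exact_mod_cast hb
  have h1 := Int.floor_le ((b:ℝ) ^ n * x)
  have h2 := Int.lt_floor_add_one ((b:ℝ) ^ n * x)
  have h3 : (b:ℤ) * ⌊(b:ℝ) ^ n * x⌋ ≤ ⌊(b:ℝ) ^ (n+1) * x⌋ := by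
    rw [Int.le_floor, pow_succ]; push_cast; nlinarith
  have h4 : ⌊(b:ℝ) ^ (n+1) * x⌋ < (b:ℤ) * ⌊(b:ℝ) ^ n * x⌋ + b := by
    rw [Int.floor_lt, pow_succ]; push_cast; nlinarith
  unfold dig
  omega

noncomputable def cd (b n : ℕ) (p : ℝ × ℝ) : ℤ := b * dig b n p.1 + dig b n p.2

lemma cd_bd (b n : ℕ) (hb : 2 ≤ b) (p : ℝ × ℝ) : (0:ℝ) ≤ cd b n p ∧ (cd b n p : ℝ) ≤ (b:ℝ) ^ 2 := by
  obtain ⟨h1, h2⟩ := dig_bd b n hb p.1
  obtain ⟨h3, h4⟩ := dig_bd b n hb p.2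
  have h5 : 0 ≤ cd b n p := by unfold cd; positivity
  have h6 : cd b n p ≤ (b:ℤ) ^ 2 := by unfold cd; nlinarith
  exact ⟨by exact_mod_cast h5, by exact_mod_cast h6⟩

noncomputable def ff (b : ℕ) (p : ℝ × ℝ) : ℝ := ∑' n, (cd b n p : ℝ) * ((3 * (b:ℝ) ^ 2)⁻¹) ^ n

lemma q_bd (b : ℕ) (hb : 2 ≤ b) : 0 < (3 * (b:ℝ) ^ 2)⁻¹ ∧ (3 * (b:ℝ) ^ 2)⁻¹ < 1 := by
  have hb0 : (2:ℝ) ≤ b := by exact_mod_cast hb
  exact ⟨by positivity, inv_lt_one_of_one_lt₀ (by nlinarith)⟩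

lemma floor_cont (b Q N : ℕ) (hb : 2 ≤ b) (hQ : b ≤ Q) (n : ℕ) {x : ℝ} (hx : x ∈ good b Q N) :
    ContinuousAt (fun x : ℝ => (⌊(b:ℝ) ^ n * x⌋ : ℝ)) x := by
  have hb0 : (2:ℝ) ≤ b := by exact_mod_cast hb
  have hbQ : (b:ℝ) ≤ Q := by exact_mod_cast hQ
  have h1 : (⌊(b:ℝ) ^ n * x⌋ : ℝ) ≠ (b:ℝ) ^ n * x := by
    intro h
    have h2 := hx (n+N) (by omega) (⌊(b:ℝ) ^ n * x⌋ * (b:ℤ) ^ N)
    have h3 : x - ((⌊(b:ℝ) ^ n * x⌋ * (b:ℤ) ^ N : ℤ) : ℝ) / (b:ℝ) ^ (n+N) = 0 := by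
      push_cast; rw [h, pow_add]; field_simp; ring
    rw [h3, abs_zero] at h2
    have : 0 < ((Q:ℝ) ^ (n+N))⁻¹ := by
      have : (0:ℝ) < Q := by linarith
      positivity
    linarith
  have h2 : ContinuousAt (fun y : ℝ => (⌊y⌋ : ℝ)) ((b:ℝ) ^ n * x) :=
    (continuousOn_floor ⌊(b:ℝ) ^ n * x⌋).continuousAt
      (Ico_mem_nhds (lt_of_le_of_ne (Int.floor_le _) h1) (Int.lt_floor_add_one _))
  exact ContinuousAt.comp (f := fun x : ℝ => (b:ℝ) ^ n * x) h2 (by fun_prop)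

lemma ff_cont (b Q N : ℕ) (hb : 2 ≤ b) (hQ : b ≤ Q) :
    ContinuousOn (ff b) (good b Q N ×ˢ good b Q N) := by
  obtain ⟨q0, q1⟩ := q_bd b hb
  refine continuousOn_tsum (u := fun n => (b:ℝ) ^ 2 * ((3 * (b:ℝ) ^ 2)⁻¹) ^ n) ?_
    ((summable_geometric_of_lt_one q0.le q1).mul_left _) ?_
  · intro n p hp
    apply ContinuousAt.continuousWithinAt
    simp only [cd, dig]
    push_cast
    have a1 := fun k => ContinuousAt.comp (f := Prod.fst) (x := p) (floor_cont b Q N hb hQ k hp.1)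
      continuousAt_fst
    have a2 := fun k => ContinuousAt.comp (f := Prod.snd) (x := p) (floor_cont b Q N hb hQ k hp.2)
      continuousAt_snd
    exact ((((a1 (n+1)).sub ((a1 n).const_mul _)).const_mul _).add
      ((a2 (n+1)).sub ((a2 n).const_mul _))).mul continuousAt_const
  · intro n p _
    obtain ⟨h1, h2⟩ := cd_bd b n hb p
    rw [Real.norm_eq_abs, abs_of_nonneg (by positivity)]
    exact mul_le_mul_of_nonneg_right h2 (by positivity)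

lemma ff_sep (b : ℕ) (hb : 2 ≤ b) (p p' : ℝ × ℝ) (n : ℕ) (h1 : ∀ k < n, cd b k p = cd b k p')
    (h2 : cd b n p ≠ cd b n p') : ((3 * (b:ℝ) ^ 2)⁻¹) ^ n ≤ 2 * |ff b p - ff b p'| := by
  have hb0 : (2:ℝ) ≤ b := by exact_mod_cast hb
  obtain ⟨q0, q1⟩ := q_bd b hb
  set q := (3 * (b:ℝ) ^ 2)⁻¹ with hq
  have hs : ∀ p, Summable fun k => (cd b k p : ℝ) * q ^ k := by
    intro p
    refine Summable.of_nonneg_of_le (fun k => mul_nonneg (cd_bd b k hb p).1 (by positivity))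
      (fun k => mul_le_mul_of_nonneg_right (cd_bd b k hb p).2 (by positivity))
      ((summable_geometric_of_lt_one q0.le q1).mul_left _)
  have tl : ∀ p, 0 ≤ ∑' k, (cd b (k + (n+1)) p : ℝ) * q ^ (k + (n+1)) ∧
      ∑' k, (cd b (k + (n+1)) p : ℝ) * q ^ (k + (n+1)) ≤ q ^ n / 2 := by
    intro p
    refine ⟨tsum_nonneg fun k => mul_nonneg (cd_bd b _ hb p).1 (by positivity), ?_⟩
    have a1 : ∑' k, (cd b (k + (n+1)) p : ℝ) * q ^ (k + (n+1)) ≤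
        ∑' k, ((b:ℝ) ^ 2 * q ^ (n+1)) * q ^ k := by
      refine Summable.tsum_le_tsum (fun k => ?_) ((summable_nat_add_iff (n+1)).mpr (hs p))
        ((summable_geometric_of_lt_one q0.le q1).mul_left _)
      refine le_trans (mul_le_mul_of_nonneg_right (cd_bd b _ hb p).2 (by positivity)) (le_of_eq ?_)
      ring
    rw [tsum_mul_left, tsum_geometric_of_lt_one q0.le q1] at a1
    refine a1.trans ?_
    have a2 : (b:ℝ) ^ 2 * q = 1 / 3 := by rw [hq]; field_simp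
    have a3 : q ≤ 1 / 3 := by nlinarith
    have a4 : (1 - q)⁻¹ ≤ 3 / 2 := by
      rw [inv_le_comm₀ (by linarith) (by norm_num)]; norm_num; linarith
    have a5 : 0 < q ^ n := by positivity
    calc (b:ℝ) ^ 2 * q ^ (n+1) * (1 - q)⁻¹ = ((b:ℝ) ^ 2 * q) * q ^ n * (1 - q)⁻¹ := by ring
      _ ≤ q ^ n / 2 := by rw [a2]; nlinarith
  have e1 := (hs p).sum_add_tsum_nat_add (n+1)
  have e2 := (hs p').sum_add_tsum_nat_add (n+1)
  rw [Finset.sum_range_succ] at e1 e2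
  have e3 : ∑ k ∈ Finset.range n, (cd b k p : ℝ) * q ^ k = ∑ k ∈ Finset.range n, (cd b k p' : ℝ) * q ^ k :=
    Finset.sum_congr rfl fun k hk => by rw [h1 k (Finset.mem_range.mp hk)]
  have a5 : 0 < q ^ n := by positivity
  obtain ⟨t1, t2⟩ := tl p
  obtain ⟨t3, t4⟩ := tl p'
  unfold ff
  rw [← hq, ← e1, ← e2, e3]
  rcases lt_or_gt_of_ne h2 with h | h
  · have : (cd b n p : ℝ) + 1 ≤ cd b n p' := by exact_mod_cast h
    refine le_trans ?_ (mul_le_mul_of_nonneg_left (neg_le_abs _) (by norm_num))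
    nlinarith
  · have : (cd b n p' : ℝ) + 1 ≤ cd b n p := by exact_mod_cast h
    refine le_trans ?_ (mul_le_mul_of_nonneg_left (le_abs_self _) (by norm_num))
    nlinarith

lemma close (b n : ℕ) (hb : 2 ≤ b) {x y : ℝ} (h0 : ⌊x⌋ = ⌊y⌋) (h : ∀ k < n, dig b k x = dig b k y) :
    |x - y| ≤ ((b:ℝ) ^ n)⁻¹ := by
  have hb0 : (2:ℝ) ≤ b := by exact_mod_cast hb
  have h1 : ⌊(b:ℝ) ^ n * x⌋ = ⌊(b:ℝ) ^ n * y⌋ := by
    induction n with
    | zero => simpa using h0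
    | succ n ih =>
      have a1 := ih fun k hk => h k (by omega)
      have a2 := h n (by omega)
      unfold dig at a2
      rw [a1] at a2
      omega
  have h2 := Int.abs_sub_lt_one_of_floor_eq_floor h1
  rw [← mul_sub, abs_mul, abs_of_pos (by positivity)] at h2
  rw [← one_mul ((b:ℝ) ^ n)⁻¹, le_mul_inv_iff₀ (by positivity)]
  linarith

lemma inv_holder (b : ℕ) (hb : 2 ≤ b) (r : ℝ) (hr : 0 < r) (hbr : (3 * (b:ℝ) ^ 2) ^ r ≤ b)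
    (p p' : ℝ × ℝ) (h1 : ⌊p.1⌋ = ⌊p'.1⌋) (h2 : ⌊p.2⌋ = ⌊p'.2⌋) :
    dist p p' ≤ 2 ^ r * dist (ff b p) (ff b p') ^ r := by
  classical
  have hb0 : (2:ℝ) ≤ b := by exact_mod_cast hb
  have key : ∀ n, (∀ k < n, cd b k p = cd b k p') → dist p p' ≤ ((b:ℝ) ^ n)⁻¹ := by
    intro n h
    have a : ∀ k < n, dig b k p.1 = dig b k p'.1 ∧ dig b k p.2 = dig b k p'.2 := by
      intro k hk
      have a0 := h k hk
      obtain ⟨a1, a2⟩ := dig_bd b k hb p.2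
      obtain ⟨a3, a4⟩ := dig_bd b k hb p'.2
      unfold cd at a0
      have a5 : dig b k p.1 = dig b k p'.1 := by
        by_contra a6
        rcases lt_or_gt_of_ne a6 with a7 | a7 <;> nlinarith
      rw [a5] at a0
      exact ⟨a5, by omega⟩
    rw [Prod.dist_eq, max_le_iff, Real.dist_eq, Real.dist_eq]
    exact ⟨close b n hb h1 fun k hk => (a k hk).1, close b n hb h2 fun k hk => (a k hk).2⟩
  by_cases hex : ∃ n, cd b n p ≠ cd b n p'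
  · have a1 := key (Nat.find hex) fun k hk => not_not.mp (Nat.find_min hex hk)
    have a2 := ff_sep b hb p p' (Nat.find hex) (fun k hk => not_not.mp (Nat.find_min hex hk))
      (Nat.find_spec hex)
    set n := Nat.find hex
    rw [← Real.mul_rpow (by norm_num) dist_nonneg, Real.dist_eq]
    refine a1.trans (le_trans ?_ (Real.rpow_le_rpow (by positivity) a2 hr.le))
    rw [← Real.rpow_natCast _ n, ← Real.rpow_natCast _ n, ← Real.rpow_mul (by positivity),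
      mul_comm (n:ℝ) r, Real.rpow_mul (by positivity), ← Real.inv_rpow (by positivity),
      Real.inv_rpow (x := 3 * (b:ℝ) ^ 2) (by positivity)]
    exact Real.rpow_le_rpow (by positivity) (inv_anti₀ (by positivity) hbr) (Nat.cast_nonneg n)
  · push Not at hex
    have a1 : dist p p' ≤ 0 := by
      refine ge_of_tendsto' (tendsto_inv_atTop_zero.comp
        (tendsto_pow_atTop_atTop_of_one_lt (show (1:ℝ) < b by linarith))) fun n => ?_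
      exact key n fun k _ => hex k
    exact a1.trans (by positivity)

lemma dim_le (b : ℕ) (hb : 2 ≤ b) (r : ℝ≥0) (hr : 0 < r) (hbr : (3 * (b:ℝ) ^ 2) ^ (r:ℝ) ≤ b)
    (i j : ℤ) (A : Set (ℝ × ℝ)) (hA : ∀ p ∈ A, ⌊p.1⌋ = i ∧ ⌊p.2⌋ = j) :
    dimH A ≤ dimH (ff b '' A) / r := by
  have hr' : (0:ℝ) < r := hr
  have key : ∀ p ∈ A, ∀ p' ∈ A, dist p p' ≤ 2 ^ (r:ℝ) * dist (ff b p) (ff b p') ^ (r:ℝ) :=
    fun p hp p' hp' => inv_holder b hb r hr' hbr p p' ((hA p hp).1.trans (hA p' hp').1.symm)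
      ((hA p hp).2.trans (hA p' hp').2.symm)
  have hinj : InjOn (ff b) A := by
    intro p hp p' hp' h
    have := key p hp p' hp'
    rw [h, dist_self, Real.zero_rpow hr'.ne', mul_zero] at this
    exact dist_le_zero.mp this
  have hH : HolderOnWith (2 ^ (r:ℝ)) r (Function.invFunOn (ff b) A) (ff b '' A) := by
    rintro _ ⟨p, hp, rfl⟩ _ ⟨p', hp', rfl⟩
    rw [hinj.leftInvOn_invFunOn hp, hinj.leftInvOn_invFunOn hp', edist_dist, edist_dist,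
      ENNReal.ofReal_rpow_of_nonneg dist_nonneg hr'.le, ← ENNReal.ofReal_coe_nnreal,
      ← ENNReal.ofReal_mul (by positivity)]
    apply ENNReal.ofReal_le_ofReal
    simpa using key p hp p' hp'
  have := hH.dimH_image_le hr
  rwa [hinj.invFunOn_image subset_rfl] at this

theorem main (E : Set (ℝ × ℝ)) (s : ℝ≥0) (h1 : 1 < dimH E) (h2 : 2 * (s:ℝ≥0∞) < dimH E) :
    ∃ f : ℝ × ℝ → ℝ, Continuous f ∧ (s:ℝ≥0∞) < dimH (f '' E) := by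
  obtain ⟨d, hd1, hd2⟩ := ENNReal.lt_iff_exists_nnreal_btwn.mp (max_lt h1 h2)
  obtain ⟨hd3, hd4⟩ := max_lt_iff.mp hd1
  have hd3' : (1:ℝ) < d := by exact_mod_cast hd3
  have hd4' : 2 * (s:ℝ) < d := by exact_mod_cast hd4
  obtain ⟨r, hr0, hr1, hr2⟩ : ∃ r : ℝ≥0, 0 < r ∧ (r:ℝ) < 1 / 2 ∧ (s:ℝ) < r * d := by
    have hs : (0:ℝ) ≤ s := s.coe_nonneg
    have a1 : (s:ℝ) / d < 1 / 2 := by rw [div_lt_iff₀ (by linarith)]; linarith
    have a2 : 0 ≤ (s:ℝ) / d := by positivity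
    refine ⟨⟨(s / d + 1 / 2) / 2, by positivity⟩, ?_, ?_, ?_⟩
    · show (0:ℝ) < (s / d + 1 / 2) / 2
      positivity
    · show ((s:ℝ) / d + 1 / 2) / 2 < 1 / 2
      linarith
    · show (s:ℝ) < ((s:ℝ) / d + 1 / 2) / 2 * d
      have : (s:ℝ) / d * d = s := by field_simp
      nlinarith
  obtain ⟨b, hb, hbr⟩ : ∃ b : ℕ, 2 ≤ b ∧ (3 * (b:ℝ) ^ 2) ^ (r:ℝ) ≤ b := by
    have a1 := ((tendsto_rpow_atTop (show 0 < 1 - 2 * (r:ℝ) by linarith)).comp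
      tendsto_natCast_atTop_atTop).eventually_ge_atTop ((3:ℝ) ^ (r:ℝ))
    obtain ⟨b, a2, a3⟩ := (a1.and (eventually_ge_atTop 2)).exists
    refine ⟨b, a3, ?_⟩
    have hb0 : (2:ℝ) ≤ b := by exact_mod_cast a3
    have a4 : (b:ℝ) = (b:ℝ) ^ (1 - 2 * (r:ℝ)) * ((b:ℝ) ^ 2) ^ (r:ℝ) := by
      rw [← Real.rpow_natCast, ← Real.rpow_mul (by linarith), ← Real.rpow_add (by linarith)]
      simp
    rw [Real.mul_rpow (by norm_num) (by positivity)]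
    conv_rhs => rw [a4]
    exact mul_le_mul_of_nonneg_right a2 (by positivity)
  obtain ⟨Q, hQd, hQ⟩ : ∃ Q : ℕ, 2 * (b:ℝ) ≤ (Q:ℝ) ^ ((d:ℝ) - 1) ∧ b ≤ Q := by
    have a1 := ((tendsto_rpow_atTop (show 0 < (d:ℝ) - 1 by linarith)).comp
      tendsto_natCast_atTop_atTop).eventually_ge_atTop (2 * (b:ℝ))
    exact (a1.and (eventually_ge_atTop b)).exists
  let A : ℕ × ℤ × ℤ → Set (ℝ × ℝ) := fun a =>
    {p | p ∈ E ∧ p ∈ good b Q a.1 ×ˢ good b Q a.1 ∧ ⌊p.1⌋ = a.2.1 ∧ ⌊p.2⌋ = a.2.2}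
  let Z : ℤ × ℤ → Set (ℝ × ℝ) := fun a =>
    {p : ℝ × ℝ | ⌊p.1⌋ = a.1 ∧ ⌊p.2⌋ = a.2 ∧ ∀ N, p.1 ∉ good b Q N}
  have hsw : Isometry (Prod.swap : ℝ × ℝ → ℝ × ℝ) :=
    Isometry.of_dist_eq fun x y => by simp [Prod.dist_eq, max_comm]
  have hcov : E ⊆ (⋃ a, A a) ∪ ((⋃ a, Z a) ∪ ⋃ a, Prod.swap '' Z a) := by
    intro p hp
    by_cases c1 : ∀ N, p.1 ∉ good b Q N
    · exact Or.inr (Or.inl (Set.mem_iUnion.mpr ⟨(⌊p.1⌋, ⌊p.2⌋), rfl, rfl, c1⟩))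
    by_cases c2 : ∀ N, p.2 ∉ good b Q N
    · exact Or.inr (Or.inr (Set.mem_iUnion.mpr ⟨(⌊p.2⌋, ⌊p.1⌋), p.swap, ⟨rfl, rfl, c2⟩, rfl⟩))
    push Not at c1 c2
    obtain ⟨N1, c1⟩ := c1
    obtain ⟨N2, c2⟩ := c2
    exact Or.inl (Set.mem_iUnion.mpr ⟨(max N1 N2, ⌊p.1⌋, ⌊p.2⌋), hp,
      ⟨good_mono b Q (le_max_left _ _) c1, good_mono b Q (le_max_right _ _) c2⟩, rfl, rfl⟩)
  obtain ⟨a, ha⟩ : ∃ a, (d:ℝ≥0∞) < dimH (A a) := by
    by_contra hc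
    push Not at hc
    refine absurd (lt_of_lt_of_le hd2 (dimH_mono hcov)) (not_lt.mpr ?_)
    simp only [dimH_union, dimH_iUnion, max_le_iff, iSup_le_iff, hsw.dimH_image]
    exact ⟨hc, fun a => strip b Q hb hQ d hQd a.1 a.2, fun a => strip b Q hb hQ d hQd a.1 a.2⟩
  have hcl : IsClosed (good b Q a.1 ×ˢ good b Q a.1) := (good_closed _ _ _).prod (good_closed _ _ _)
  obtain ⟨g, hg⟩ := ContinuousMap.exists_restrict_eq hcl
    ⟨_, (ff_cont b Q a.1 hb hQ).domRestrict⟩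
  refine ⟨g, g.continuous, ?_⟩
  have hsub : ff b '' A a ⊆ g '' E := by
    rintro _ ⟨p, hp, rfl⟩
    exact ⟨p, hp.1, congrArg (fun u : C(_, ℝ) => u ⟨p, hp.2.1⟩) hg⟩
  have h3 := lt_of_lt_of_le ha (dim_le b hb r hr0 hbr a.2.1 a.2.2 (A a) fun p hp => hp.2.2)
  rw [ENNReal.lt_div_iff_mul_lt (Or.inl (by exact_mod_cast hr0.ne')) (Or.inl ENNReal.coe_ne_top)] at h3
  refine lt_of_lt_of_le (lt_trans ?_ h3) (dimH_mono hsub)
  rw [mul_comm] at hr2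
  exact_mod_cast hr2

end Pool.Agent.H.MP_2d1133_lc
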